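import Mathlib.Tactic.Abel
import Mathlib.Algebra.BigOperators.Ring.Finset
import Mathlib.Algebra.Notation.Lemmas
import Mathlib.Tactic.SuppressCompilation
import Mathlib.Tactic.LinearCombination
import Mathlib.Algebra.Field.ZMod

/-! Colourings of a grid in which every colour meets every line once; parity; switches. -/

namespace Pool.Agent.MP_264e74_co.H91

set_option linter.unusedSectionVars false

open Function Finset

section Gen

variable {D X : Type} [DecidableEq D]

/-- A set of tuples meeting every axis-parallel line exactly once. -/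
def Lat (S : (D → X) → Prop) : Prop := ∀ (i : D) (x : D → X), ∃! a, S (update x i a)

/-- Every colour meets every line exactly once. -/
def Val {Λ : Type} (c : (D → X) → Option Λ) : Prop := ∀ l, Lat fun x => c x = some l

/-- The colouring has no completion. -/
def Stuck {Λ : Type} (c : (D → X) → Option Λ) : Prop :=
  ∀ (Γ : Type) (C : (D → X) → Γ) (ι : Λ → Γ), (∀ γ, Lat fun x => C x = γ) →
    (∀ x l, c x = some l → C x = ι l) → False

theorem Lat.invol {S S' : (D → X) → Prop} (h : Lat S) (τ : D → (D → X) → X)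
    (hτ : ∀ i x, τ i (update x i (τ i x)) = x i)
    (hS : ∀ i x, S' x ↔ S (update x i (τ i x))) : Lat S' := by
  intro i x
  obtain ⟨a, ha, hu⟩ := h i x
  refine ⟨τ i (update x i a), ?_, fun b hb => ?_⟩
  · have e := hτ i (update x i a)
    rw [update_idem, update_self] at e
    show S' _
    rw [hS i, update_idem, e]
    exact ha
  · have e := hτ i (update x i b)
    have hb' := (hS i _).1 hb
    rw [update_idem] at hb' e
    rw [update_self, hu _ hb'] at e
    exact e.symm

theorem Val.invol {Λ : Type} {c c' : (D → X) → Option Λ} (h : Val c) (τ : D → (D → X) → X)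
    (hτ : ∀ i x, τ i (update x i (τ i x)) = x i)
    (hc : ∀ i x, c' x = c (update x i (τ i x))) : Val c' :=
  fun l => (h l).invol τ hτ fun i x => by rw [hc i x]

theorem sum_lat [Fintype D] [Fintype X] {S S' : (D → X) → Prop} [DecidablePred S]
    [DecidablePred S'] (h : Lat S) (h' : Lat S') (g : (D → X) → ZMod 2) (i : D)
    (hg : ∀ x a, g (update x i a) = g x) : ∑ x with S x, g x = ∑ x with S' x, g x := by
  choose ψ hψ using fun x => h i x
  choose ψ' hψ' using fun x => h' i x
  refine Finset.sum_nbij' (fun x => update x i (ψ' x)) (fun x => update x i (ψ x))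
    (fun x _ => by simpa using (hψ' x).1) (fun x _ => by simpa using (hψ x).1)
    (fun x hx => ?_) (fun x hx => ?_) fun x _ => (hg x _).symm
  · have e := (hψ (update x i (ψ' x))).2 (x i) (by simpa using hx)
    simp only [update_idem]
    rw [← e, update_eq_self]
  · have e := (hψ' (update x i (ψ x))).2 (x i) (by simpa using hx)
    simp only [update_idem]
    rw [← e, update_eq_self]

/-- The number of points with label sum zero has the same parity for all such sets. -/
theorem sum_par [Fintype D] [Fintype X] {J : Type} [Fintype J] (hJ : Fintype.card J < Fintype.card D)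
    (lam : J → X → ZMod 2) {S S' : (D → X) → Prop} [DecidablePred S] [DecidablePred S']
    (h : Lat S) (h' : Lat S') :
    ∑ x with S x, ∏ j, (1 + ∑ i, lam j (x i)) = ∑ x with S' x, ∏ j, (1 + ∑ i, lam j (x i)) := by
  classical
  let f : (D → X) → J → Option D → ZMod 2 := fun x j o => o.elim 1 fun i => lam j (x i)
  have e : ∀ x : D → X, ∏ j, (1 + ∑ i, lam j (x i)) = ∑ s : J → Option D, ∏ j, f x j (s j) := by
    intro x
    rw [← Fintype.piFinset_univ, ← Finset.prod_univ_sum (fun _ => univ) (f x)]
    exact Finset.prod_congr rfl fun j _ => by rw [Fintype.sum_option]; rfl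
  simp only [e]
  rw [Finset.sum_comm, Finset.sum_comm (s := univ.filter S')]
  refine Finset.sum_congr rfl fun s _ => ?_
  obtain ⟨i, hi⟩ : ∃ i, ∀ j, s j ≠ some i := by
    by_contra hn
    push Not at hn
    choose r hr using hn
    have : Injective r := fun a b e => Option.some_injective _ (by rw [← hr a, ← hr b, e])
    exact absurd (Fintype.card_le_of_injective r this) (not_le.2 hJ)
  refine sum_lat h h' _ i fun x a => Finset.prod_congr rfl fun j _ => ?_
  rcases e' : s j with _ | i'
  · rfl
  · have : i' ≠ i := fun k => hi j (by rw [e', k])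
    simp only [f, Option.elim, update_of_ne this]

/-- Two uncoloured points on a line, all other points of label sum zero coloured. -/
theorem stuck_of [Fintype D] [Fintype X] {J Λ : Type} [Fintype J]
    (hJ : Fintype.card J < Fintype.card D) (lam : J → X → ZMod 2) {c : (D → X) → Option Λ}
    (hc : Val c) {S₀ : (D → X) → Prop} (h₀ : Lat S₀)
    (hz : ∀ x, S₀ x → ∃ j, ∑ i, lam j (x i) ≠ 0) {p : D → X} {i₀ : D} {b : X} (hb : b ≠ p i₀)
    (hp : c p = none) (hp0 : ∀ j, ∑ i, lam j (p i) = 0)
    (hall : ∀ x, (∀ j, ∑ i, lam j (x i) = 0) → c x = none → x = p ∨ x = update p i₀ b) :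
    Stuck c := by
  classical
  intro Γ C ι hC hι
  have two : ∀ a : ZMod 2, a ≠ 0 → 1 + a = 0 := by decide
  have hne : ∀ l, ι l ≠ C p := fun l e => by
    obtain ⟨a, ha, -⟩ := hc l i₀ p
    have k := (hC (C p) i₀ p).unique (y₁ := a) (y₂ := p i₀) ((hι _ _ ha).trans e) (by simp)
    rw [k, update_eq_self, hp] at ha
    cases ha
  have h1 := sum_par hJ lam (hC (C p)) h₀
  rw [Finset.sum_eq_zero (s := univ.filter S₀) fun x hx => ?_,
    Finset.sum_eq_single_of_mem p (by simp) fun x hx hxp => ?_] at h1
  · simp [hp0] at h1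
  · by_contra hn
    have hx' : C x = C p := (Finset.mem_filter.1 hx).2
    have k : ∀ j, ∑ i, lam j (x i) = 0 := fun j => by
      by_contra k
      exact hn (Finset.prod_eq_zero (mem_univ j) (two _ k))
    rcases e : c x with _ | l
    · rcases hall x k e with rfl | rfl
      · exact hxp rfl
      · exact hb ((hC (C p) i₀ p).unique hx' (by simp))
    · exact hne l ((hι _ _ e).symm.trans hx')
  · obtain ⟨j, hj⟩ := hz x (Finset.mem_filter.1 hx).2
    exact Finset.prod_eq_zero (mem_univ j) (two _ hj)

/-- Transport to another grid. -/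
theorem transport {D' X' Λ Λ' : Type} [DecidableEq D'] {c : (D → X) → Option Λ} (hv : Val c)
    (hs : Stuck c) (E : (D' → X') → D → X) (I : (D → X) → D' → X') (f : Λ ≃ Λ')
    (hE : ∀ S, Lat S → Lat fun x => S (E x)) (hI : ∀ S, Lat S → Lat fun x => S (I x))
    (hEI : ∀ x, E (I x) = x) : ∃ c' : (D' → X') → Option Λ', Val c' ∧ Stuck c' := by
  refine ⟨fun x => (c (E x)).map f, fun l => ?_, fun Γ C ι hC hι => ?_⟩
  · have := hE _ (hv (f.symm l))
    have e : ∀ o : Option Λ, o.map f = some l ↔ o = some (f.symm l) := fun o => by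
      cases o <;> simp [Equiv.eq_symm_apply]
    simpa only [e] using this
  · exact hs Γ (fun x => C (I x)) (fun l => ι (f l)) (fun γ => hI _ (hC γ))
      fun x l e => hι _ _ (by simp [hEI, e])

end Gen

section Sw

variable {D G : Type} [DecidableEq D] [Fintype D] [AddCommGroup G]

open Classical

/-- The subcube with base point `y` and directions `a`. -/
def Cube (y a x : D → G) : Prop := ∀ i, x i = y i ∨ x i = y i + a i

/-- The parity of a point of a subcube. -/
noncomputable def par (y x : D → G) : ZMod 2 := ∑ i, if x i = y i then 0 else 1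

theorem Cube.flip {y a x : D → G} (h : Cube y a x) (i : D) (h2 : a i + a i = 0) :
    Cube y a (update x i (x i + a i)) := fun j => by
  by_cases e : j = i
  · subst e
    rw [update_self]
    rcases h j with k | k
    · exact Or.inr (by rw [k])
    · exact Or.inl (by rw [k, add_assoc, h2, add_zero])
  · rw [update_of_ne e]
    exact h j

theorem par_flip {y a x : D → G} (h : Cube y a x) (i : D) (h2 : a i + a i = 0) (h0 : a i ≠ 0) :
    par y (update x i (x i + a i)) = par y x + 1 := by
  unfold par
  rw [← Finset.add_sum_erase _ _ (mem_univ i),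
    ← Finset.add_sum_erase _ (fun j => if x j = y j then (0 : ZMod 2) else 1) (mem_univ i),
    Finset.sum_congr rfl fun j hj => by rw [update_of_ne (Finset.mem_erase.1 hj).1],
    update_self, add_right_comm]
  congr 1
  rcases h i with k | k
  · rw [if_pos k, if_neg (by rw [k]; simpa using h0), zero_add]
  · rw [if_pos (by rw [k, add_assoc, h2, add_zero]), if_neg (by rw [k]; simpa using h0)]
    decide

/-- Remove the colour `l` from the even points of a subcube and put it on the odd points. -/
noncomputable def sw {Λ : Type} (y a : D → G) (l : Λ) (c : (D → G) → Option Λ) (x : D → G) :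
    Option Λ :=
  if Cube y a x then if par y x = 0 then none else some l else c x

theorem Val.sw {Λ : Type} {y a : D → G} {l : Λ} {c : (D → G) → Option Λ} (hc : Val c)
    (h2 : ∀ i, a i + a i = 0) (h0 : ∀ i, a i ≠ 0)
    (he : ∀ x, Cube y a x → par y x = 0 → c x = some l)
    (ho : ∀ x, Cube y a x → par y x ≠ 0 → c x = none) : Val (sw y a l c) := by
  have two : ∀ t : ZMod 2, t + 1 = 0 ↔ t ≠ 0 := by decide
  refine hc.invol (fun i x => if Cube y a x then x i + a i else x i) (fun i x => ?_) fun i x => ?_
  · by_cases h : Cube y a x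
    · rw [if_pos h, if_pos (h.flip i (h2 i)), update_self, add_assoc, h2, add_zero]
    · rw [if_neg h, update_eq_self, if_neg h]
  · unfold H91.sw
    by_cases h : Cube y a x
    · rw [if_pos h, if_pos h]
      have k := par_flip h i (h2 i) (h0 i)
      split_ifs with e
      · exact (ho _ (h.flip i (h2 i)) (by rw [k, Ne, two]; simpa using e)).symm
      · exact (he _ (h.flip i (h2 i)) (by rw [k, two]; exact e)).symm
    · rw [if_neg h, if_neg h, update_eq_self]

theorem sum_two {x : D → G} {s : G} (hs : s + s = 0) (h : ∀ i, x i = 0 ∨ x i = s) :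
    ∑ i, x i = 0 ∨ ∑ i, x i = s := by
  refine Finset.sum_induction x (fun g => g = 0 ∨ g = s) ?_ (Or.inl rfl) fun i _ => h i
  rintro _ _ (rfl | rfl) (rfl | rfl) <;> simp [hs]

/-- Two points of the same parity whose differences are all zero or equal to their sum agree. -/
theorem rigid {y a u v : D → G} (hu : Cube y a u) (hv : Cube y a v) (hp : par y u = par y v)
    (h2 : ∀ i, a i + a i = 0) (h : ∀ i, u i = v i ∨ u i - v i = ∑ i, (u i - v i)) : u = v := by
  by_contra hn
  obtain ⟨i₀, hi₀⟩ := Function.ne_iff.1 hn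
  set s := ∑ i, (u i - v i) with hs
  have ha : ∀ i, u i ≠ v i → u i - v i = a i := fun i k => by
    rcases hu i with k1 | k1 <;> rcases hv i with k2 | k2
    · exact absurd (k1.trans k2.symm) k
    · rw [k1, k2, sub_add_cancel_left, neg_eq_iff_add_eq_zero, h2]
    · rw [k1, k2, add_sub_cancel_left]
    · exact absurd (k1.trans k2.symm) k
  have hss : s + s = 0 := by rw [← (h i₀).resolve_left hi₀, ha i₀ hi₀, h2]
  let m : ZMod 2 →+ G := AddMonoidHom.mk' (fun t => if t = 0 then 0 else s) fun t t' => by
    have : ∀ t : ZMod 2, t = 0 ∨ t = 1 := by decide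
    have e : (1 : ZMod 2) + 1 = 0 := by decide
    rcases this t with rfl | rfl <;> rcases this t' with rfl | rfl <;> simp [e, hss]
  have e1 : ∀ i, u i - v i =
      m ((if u i = y i then 0 else 1) + if v i = y i then 0 else 1) := fun i => by
    have e : (1 : ZMod 2) + 1 = 0 := by decide
    by_cases k : u i = v i
    · rw [k, sub_self]
      split_ifs <;> simp [e]
    · rw [(h i).resolve_left k]
      by_cases k1 : u i = y i
      · rw [if_pos k1, if_neg fun k2 => k (k1.trans k2.symm)]
        simp [m]
      · have k2 : v i = y i := by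
          by_contra k2
          exact k (((hu i).resolve_left k1).trans ((hv i).resolve_left k2).symm)
        rw [if_neg k1, if_pos k2]
        simp [m]
  have e2 : s = m (par y u + par y v) := by
    rw [hs, Finset.sum_congr rfl fun i _ => e1 i, ← map_sum, Finset.sum_add_distrib]
    rfl
  have e3 : ∀ t : ZMod 2, t + t = 0 := by decide
  rw [hp, e3, map_zero] at e2
  exact hi₀ (sub_eq_zero.1 (((h i₀).resolve_left hi₀).trans e2))

/-- Bring the points of `E j` to the sum `l j` by swaps on disjoint subcubes. -/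
theorem gather {J Φ : Type} [AddCommGroup Φ] (φ : G →+ Φ) (E : J → (D → G) → Prop) (l : J → G)
    (hl2 : ∀ j, l j + l j = 0) (hl0 : ∀ j, φ (l j) ≠ 0) (hli : ∀ j j', φ (l j) = φ (l j') → j = j')
    (hE2 : ∀ j y, E j y → ∀ i, y i + y i = 0) (hE0 : ∀ j y, E j y → ∀ i, φ (y i) = 0)
    (hEd : ∀ j j' y, E j y → E j' y → j = j')
    (hEr : ∀ j u v, E j u → E j v → (∀ i, u i = v i ∨ u i - v i = ∑ i, (u i - v i)) → u = v) :
    ∃ δ : (D → G) → G, (∀ x, δ x + δ x = 0) ∧ (∀ i x, δ (update x i (x i + δ x)) = δ x) ∧
      (∀ j y, E j y → ∑ i, y i + δ y = l j) ∧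
      (∀ x, (∀ i, φ (x i) = 0) → (∀ j, ¬ E j x) → δ x = 0) ∧
      ∀ x, δ x = 0 ∨ ∃ j, ∑ i, x i = l j ∨ ∑ i, x i + δ x = l j := by
  let R : J × (D → G) → (D → G) → Prop := fun q x =>
    E q.1 q.2 ∧ Cube q.2 (fun _ => ∑ i, q.2 i + l q.1) x
  have hs2 : ∀ j y, E j y → ∑ i, y i + ∑ i, y i = 0 := fun j y h => by
    rw [← Finset.sum_add_distrib]
    exact Finset.sum_eq_zero fun i _ => hE2 j y h i
  have hd2 : ∀ j y, E j y → (∑ i, y i + l j) + (∑ i, y i + l j) = 0 := fun j y h => by
    rw [add_add_add_comm, hs2 j y h, hl2, add_zero]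
  have hφ : ∀ j y, E j y → ∀ i, φ (y i + (∑ i, y i + l j)) = φ (l j) := fun j y h i => by
    rw [map_add, map_add, map_sum, hE0 j y h, Finset.sum_eq_zero fun i _ => hE0 j y h i,
      zero_add, zero_add]
  have uniq : ∀ q q' x, R q x → R q' x → q = q' := by
    rintro ⟨j, u⟩ ⟨j', v⟩ x ⟨h1, c1⟩ ⟨h2, c2⟩
    have key : ∀ i, u i = v i ∨
        (j = j' ∧ u i + (∑ i, u i + l j) = v i + (∑ i, v i + l j')) := fun i => by
      rcases c1 i with k1 | k1 <;> rcases c2 i with k2 | k2
      · exact Or.inl (k1.symm.trans k2)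
      · exact absurd (by rw [← hφ j' v h2 i, ← hE0 j u h1 i]; exact congrArg φ (k2.symm.trans k1))
          (hl0 j')
      · exact absurd (by rw [← hφ j u h1 i, ← hE0 j' v h2 i]; exact congrArg φ (k1.symm.trans k2))
          (hl0 j)
      · exact Or.inr ⟨hli _ _ (by
          rw [← hφ j u h1 i, ← hφ j' v h2 i]; exact congrArg φ (k1.symm.trans k2)),
          k1.symm.trans k2⟩
    by_cases e : j = j'
    · subst e
      rw [hEr j u v h1 h2 fun i => (key i).imp_right fun k => ?_]
      have k1 := hs2 j u h1
      have k2 := hs2 j v h2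
      rw [Finset.sum_sub_distrib]
      linear_combination (norm := abel1) k.2 - k1 + k2
    · have : u = v := funext fun i => (key i).resolve_right fun k => e k.1
      subst this
      exact absurd (hEd j j' u h1 h2) e
  let δ : (D → G) → G := fun x =>
    if h : ∃ q, R q x then ∑ i, h.choose.2 i + l h.choose.1 else 0
  have hδ : ∀ q x, R q x → δ x = ∑ i, q.2 i + l q.1 := fun q x h => by
    have h' : ∃ q, R q x := ⟨q, h⟩
    simp only [δ, dif_pos h']
    rw [uniq _ _ x h'.choose_spec h]
  have hδ0 : ∀ x, (¬ ∃ q, R q x) → δ x = 0 := fun x h => dif_neg h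
  refine ⟨δ, fun x => ?_, fun i x => ?_, fun j y h => ?_, fun x hx hn => hδ0 x ?_, fun x => ?_⟩
  · by_cases h : ∃ q, R q x
    · obtain ⟨q, h⟩ := h
      rw [hδ q x h]
      exact hd2 _ _ h.1
    · rw [hδ0 x h, add_zero]
  · by_cases h : ∃ q, R q x
    · obtain ⟨q, h⟩ := h
      rw [hδ q x h]
      exact hδ q _ ⟨h.1, h.2.flip i (hd2 _ _ h.1)⟩
    · rw [hδ0 x h, add_zero, update_eq_self, hδ0 x h]
  · rw [hδ (j, y) y ⟨h, fun i => Or.inl rfl⟩, ← add_assoc, hs2 j y h, zero_add]
  · rintro ⟨⟨j, y⟩, h1, c1⟩
    have : x = y := funext fun i => (c1 i).resolve_right fun k =>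
      hl0 j (by rw [← hφ j y h1 i, ← hx i]; exact congrArg φ k.symm)
    exact hn j (this ▸ h1)
  · by_cases h : ∃ q, R q x
    · obtain ⟨⟨j, y⟩, h⟩ := h
      refine Or.inr ⟨j, ?_⟩
      have k := sum_two (x := fun i => x i - y i) (hd2 j y h.1) fun i =>
        (h.2 i).imp sub_eq_zero.2 fun k => by rw [k, add_sub_cancel_left]
      have k2 := hs2 j y h.1
      rw [Finset.sum_sub_distrib] at k
      rw [hδ _ x h]
      rcases k with k | k
      · exact Or.inr (by linear_combination (norm := abel1) k + k2)
      · exact Or.inl (by linear_combination (norm := abel1) k + k2)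
    · exact Or.inl (hδ0 x h)

end Sw

end Pool.Agent.MP_264e74_co.H91
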