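import Mathlib.Algebra.BigOperators.Pi
import Mathlib.Data.Fin.VecNotation
import Mathlib.Algebra.Order.Ring.Star
import Pool.Agent.MP_264e74_co.h91.Trap

/-! The colouring with two uncoloured points of label sum zero on one line. -/

namespace Pool.Agent.MP_264e74_co.H91

set_option linter.unusedSectionVars false

open Function Finset

abbrev W : Type := Fin 5 → ZMod 2

def yW : Fin 3 → Fin 3 → W :=
  ![![0, 0, 0], ![![1, 1, 0, 0, 0], ![1, 1, 0, 0, 0], 0], ![![1, 0, 0, 0, 0], ![1, 1, 0, 0, 0], 0]]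

def aW : Fin 3 → Fin 3 → W :=
  ![![![1, 0, 0, 0, 0], ![1, 0, 0, 0, 0], ![0, 1, 0, 0, 0]],
    ![![1, 1, 0, 0, 0], ![1, 1, 1, 0, 0], ![0, 1, 0, 0, 0]],
    ![![0, 1, 0, 0, 0], ![0, 1, 0, 0, 0], ![1, 0, 1, 0, 0]]]

def tW : Fin 3 → W := ![0, 0, ![0, 0, 1, 0, 0]]

def lW : Fin 3 → W := ![![1, 0, 0, 1, 0], ![1, 0, 0, 0, 1], ![1, 0, 0, 1, 1]]

def xx : Fin 3 → W := ![![1, 0, 0, 0, 0], ![1, 0, 0, 0, 0], 0]

def zz : Fin 3 → W := ![![1, 1, 0, 0, 0], ![1, 1, 0, 0, 0], 0]

def pp : Fin 3 → W := ![0, ![0, 0, 1, 0, 0], 0]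

def pt (j : Fin 3) (ε : Fin 3 → Bool) (i : Fin 3) : W := if ε i then yW j i + aW j i else yW j i

def CW (j : Fin 3) (v : Fin 3 → W) : Prop := ∀ i, v i = yW j i ∨ v i = yW j i + aW j i

instance (j : Fin 3) (v : Fin 3 → W) : Decidable (CW j v) := by unfold CW; infer_instance

def pW (j : Fin 3) (v : Fin 3 → W) : ZMod 2 := ∑ i, if v i = yW j i then 0 else 1

def LW (v : Fin 3 → W) : Prop := ∑ i, v i 0 = 0 ∧ ∑ i, v i 1 = 0

instance (v : Fin 3 → W) : Decidable (LW v) := by unfold LW; infer_instance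

variable {ι Z : Type} [Fintype ι] [DecidableEq ι] [AddCommGroup Z]

/-- The group. -/
abbrev Gp (ι Z : Type) : Type := W × (ι → ZMod 2) × Z

def emb (w : W) : Gp ι Z := (w, 0, 0)

def hd (v : Fin 3 → W) : Fin 3 ⊕ ι → Gp ι Z := Sum.elim (fun i => emb (v i)) fun _ => 0

def dir (j : Fin 3) : Fin 3 ⊕ ι → Gp ι Z :=
  Sum.elim (fun i => emb (aW j i)) fun i => (tW j, Pi.single i 1, 0)

/-- The three subcubes. -/
def Q (j : Fin 3) (x : Fin 3 ⊕ ι → Gp ι Z) : Prop := Cube (hd (yW j)) (dir j) x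

/-- The labels. -/
def lam : Fin 2 ⊕ ι → Gp ι Z → ZMod 2 :=
  Sum.elim (fun k g => g.1 (k.castLE (by norm_num))) fun i g => g.2.1 i

theorem lam_sum (j : Fin 2 ⊕ ι) (x : Fin 3 ⊕ ι → Gp ι Z) :
    lam j (∑ i, x i) = ∑ i, lam j (x i) := by
  cases j <;> simp [lam, Prod.fst_sum, Prod.snd_sum, Finset.sum_apply]

def L0 (x : Fin 3 ⊕ ι → Gp ι Z) : Prop := ∀ j, ∑ i, lam j (x i) = 0

def phi : Gp ι Z →+ ZMod 2 × ZMod 2 where
  toFun g := (g.1 3, g.1 4)
  map_zero' := rfl
  map_add' _ _ := rfl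

theorem emb_inj {v w : W} : (emb v : Gp ι Z) = emb w ↔ v = w := by simp [emb]

theorem emb_add (v w : W) : (emb v : Gp ι Z) + emb w = emb (v + w) := by simp [emb]

theorem w_two (w : W) : w + w = 0 := funext fun i => CharTwo.add_self_eq_zero (w i)

theorem emb_two (w : W) : (emb w : Gp ι Z) + emb w = 0 := by rw [emb_add, w_two]; rfl

theorem dir_two (j : Fin 3) (i : Fin 3 ⊕ ι) : (dir j i : Gp ι Z) + dir j i = 0 := by
  rcases i with i | i
  · exact emb_two _
  · refine Prod.ext (w_two _) (Prod.ext (funext fun k => ?_) (add_zero _))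
    exact CharTwo.add_self_eq_zero _

theorem dir_ne (j : Fin 3) (i : Fin 3 ⊕ ι) : (dir j i : Gp ι Z) ≠ 0 := by
  rcases i with i | i
  · have : ∀ j i, aW j i ≠ 0 := by decide
    exact fun e => this j i (congrArg Prod.fst e)
  · intro e
    simpa [dir] using congrFun (congrArg (fun g => g.2.1) e) i

theorem Q_hd {j : Fin 3} {v : Fin 3 → W} : Q j (hd v : Fin 3 ⊕ ι → Gp ι Z) ↔ CW j v := by
  simp [Q, Cube, CW, hd, dir, emb_add, emb_inj]

theorem par_hd (j : Fin 3) (v : Fin 3 → W) :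
    par (hd (yW j)) (hd v : Fin 3 ⊕ ι → Gp ι Z) = pW j v := by
  simp [par, pW, hd, emb_inj, Fintype.sum_sum_type]

theorem L0_hd {v : Fin 3 → W} (h : L0 (hd v : Fin 3 ⊕ ι → Gp ι Z)) : LW v :=
  ⟨by simpa [lam, hd, emb, Fintype.sum_sum_type] using h (.inl 0),
    by simpa [lam, hd, emb, Fintype.sum_sum_type] using h (.inl 1)⟩

theorem Q.head {j : Fin 3} {x : Fin 3 ⊕ ι → Gp ι Z} (h : Q j x) (h0 : ∀ i, x (.inr i) = 0) :
    ∃ ε, x = hd (pt j ε) := by
  classical
  refine ⟨fun i => decide (x (.inl i) ≠ emb (yW j i)), funext fun i => ?_⟩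
  rcases i with i | i
  · by_cases e : x (.inl i) = emb (yW j i)
    · simp [hd, pt, e]
    · simpa [hd, pt, e, dir, emb_add] using h (.inl i)
  · exact h0 i

theorem Q.tail {j : Fin 3} {x : Fin 3 ⊕ ι → Gp ι Z} (h : Q j x) (h0 : L0 x) (i : ι) :
    x (.inr i) = 0 := by
  refine (h (.inr i)).resolve_right fun e => ?_
  have k := h0 (.inr i)
  rw [Finset.sum_eq_single (Sum.inr i) (fun d _ hd' => ?_) (by simp), e] at k
  · simp [lam, hd, dir] at k
  · rcases d with d | d
    · rcases h (.inl d) with e | e <;> simp [e, lam, hd, dir, emb]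
    · have : i ≠ d := fun e => hd' (by rw [e])
      rcases h (.inr d) with e | e <;> simp [e, lam, hd, dir, this]

theorem Q.tail2 {j j' : Fin 3} {x : Fin 3 ⊕ ι → Gp ι Z} (h : Q j x) (h' : Q j' x)
    (hn : tW j ≠ tW j') (i : ι) : x (.inr i) = 0 := by
  refine (h (.inr i)).resolve_right fun e => ?_
  rcases h' (.inr i) with e' | e'
  · exact dir_ne j (.inr i) (by simpa [hd] using e.symm.trans e')
  · exact hn (by simpa [hd, dir] using e.symm.trans e')

theorem n01 {x : Fin 3 ⊕ ι → Gp ι Z} (h : Q 0 x) (h' : Q 1 x) : False := by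
  have k : ∀ j, Q j x → (x (.inl 1)).1 = yW j 1 ∨ (x (.inl 1)).1 = yW j 1 + aW j 1 :=
    fun j h => (h (.inl 1)).imp (congrArg Prod.fst) (congrArg Prod.fst)
  rcases k 0 h with e | e <;> rcases k 1 h' with e' | e' <;>
    exact absurd (e.symm.trans e') (by decide)

theorem n02 {x : Fin 3 ⊕ ι → Gp ι Z} (h : Q 0 x) (h' : Q 2 x) : x = hd xx := by
  obtain ⟨ε, rfl⟩ := h.head (h.tail2 h' (by decide))
  have : ∀ ε, CW 2 (pt 0 ε) → pt 0 ε = xx := by decide
  rw [this ε (Q_hd.1 h')]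

theorem n12 {x : Fin 3 ⊕ ι → Gp ι Z} (h : Q 1 x) (h' : Q 2 x) : x = hd zz := by
  obtain ⟨ε, rfl⟩ := h.head (h.tail2 h' (by decide))
  have : ∀ ε, CW 2 (pt 1 ε) → pt 1 ε = zz := by decide
  rw [this ε (Q_hd.1 h')]

theorem lab {j : Fin 3} {x : Fin 3 ⊕ ι → Gp ι Z} (h : Q j x) (h0 : L0 x) :
    x = hd (![0, zz, zz] j) ∨ x = hd (![xx, pp, xx] j) := by
  obtain ⟨ε, rfl⟩ := h.head (h.tail h0)
  have : ∀ j ε, LW (pt j ε) → pt j ε = ![0, zz, zz] j ∨ pt j ε = ![xx, pp, xx] j := by decide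
  exact (this j ε (L0_hd h0)).imp (congrArg hd) (congrArg hd)

theorem Q.two {j : Fin 3} {x : Fin 3 ⊕ ι → Gp ι Z} (h : Q j x) (i : Fin 3 ⊕ ι) :
    x i + x i = 0 := by
  have : (hd (yW j) i : Gp ι Z) + hd (yW j) i = 0 := by
    rcases i with i | i
    · exact emb_two _
    · exact add_zero _
  rcases h i with e | e
  · rw [e, this]
  · rw [e, add_add_add_comm, this, dir_two, add_zero]

theorem Q.flat {j : Fin 3} {x : Fin 3 ⊕ ι → Gp ι Z} (h : Q j x) (i : Fin 3 ⊕ ι) :
    phi (x i) = 0 := by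
  have h1 : ∀ j i, (yW j i 3, yW j i 4) = 0 := by decide
  have h2 : ∀ j i, (aW j i 3, aW j i 4) = 0 := by decide
  have h3 : ∀ j, (tW j 3, tW j 4) = 0 := by decide
  have k1 : phi (hd (yW j) i : Gp ι Z) = 0 := by
    rcases i with i | i
    · exact h1 j i
    · rfl
  have k2 : phi (dir j i : Gp ι Z) = 0 := by
    rcases i with i | i
    · exact h2 j i
    · exact h3 j
  rcases h i with e | e
  · rw [e, k1]
  · rw [e, map_add, k1, k2, add_zero]

/-- The colours. -/
def col : ((Fin 3 → ZMod 2) × Z) ⊕ Fin 3 → Gp ι Z :=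
  Sum.elim (fun q => (![0, 0, q.1 0, q.1 1, q.1 2], 0, q.2)) fun j => emb (lW j)

theorem col_inj : Injective (col : _ → Gp ι Z) := by
  have h1 : ∀ j, lW j 0 ≠ 0 := by decide
  have h2 : ∀ j j', lW j = lW j' → j = j' := by decide
  rintro (⟨v, z⟩ | j) (⟨v', z'⟩ | j') e
  · have k := congrArg Prod.fst e
    have k' : z = z' := congrArg (fun g => g.2.2) e
    have : v = v' := funext fun i => by
      fin_cases i
      · exact congrFun k 2
      · exact congrFun k 3
      · exact congrFun k 4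
    rw [this, k']
  · exact absurd (congrFun (congrArg Prod.fst e) 0).symm (h1 j')
  · exact absurd (congrFun (congrArg Prod.fst e) 0) (h1 j)
  · rw [h2 j j' (congrArg Prod.fst e)]

theorem col_of {g : Gp ι Z} (h : ∀ j, lam j g = 0) : ∃ l, col l = g := by
  refine ⟨.inl (![g.1 2, g.1 3, g.1 4], g.2.2), Prod.ext (funext fun i => ?_)
    (Prod.ext (funext fun i => (h (.inr i)).symm) rfl)⟩
  fin_cases i
  · exact (h (.inl 0)).symm
  · exact (h (.inl 1)).symm
  all_goals rfl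

open Classical in
noncomputable def kap (g : Gp ι Z) : Option (((Fin 3 → ZMod 2) × Z) ⊕ Fin 3) :=
  if h : ∃ l, col l = g then some h.choose else none

theorem kap_iff {g : Gp ι Z} {l : ((Fin 3 → ZMod 2) × Z) ⊕ Fin 3} : kap g = some l ↔ g = col l := by
  unfold kap
  split_ifs with h
  · exact ⟨fun e => by rw [← Option.some_injective _ e, h.choose_spec],
      fun e => congrArg some (col_inj (h.choose_spec.trans e))⟩
  · exact ⟨False.elim, fun e => h ⟨l, e.symm⟩⟩

theorem kap_none {g : Gp ι Z} (h : ¬ ∀ j, lam j g = 0) (h' : phi g = 0) : kap g = none := by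
  refine dif_neg ?_
  have h1 : ∀ j, (lW j 3, lW j 4) ≠ 0 := by decide
  rintro ⟨q | j, rfl⟩
  · refine h ?_
    rintro (k | k)
    · fin_cases k <;> rfl
    · rfl
  · exact h1 j h'

theorem sum_update {D G : Type} [Fintype D] [DecidableEq D] [AddCommGroup G] (x : D → G) (i : D)
    (a : G) : ∑ d, update x i a d = ∑ d, x d - x i + a := by
  rw [Finset.sum_update_of_mem (mem_univ i), ← Finset.add_sum_erase _ x (mem_univ i),
    Finset.sdiff_singleton_eq_erase]
  abel

theorem lat_sum {D G : Type} [Fintype D] [DecidableEq D] [AddCommGroup G] (g : G) :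
    Lat fun x : D → G => ∑ d, x d = g := fun i x =>
  ⟨g - (∑ d, x d - x i), by simp [sum_update], fun a ha => by
    rw [← show ∑ d, update x i a d = g from ha, sum_update]; abel⟩

theorem exists_trap [Fintype Z] :
    ∃ c : (Fin 3 ⊕ ι → Gp ι Z) → Option (((Fin 3 → ZMod 2) × Z) ⊕ Fin 3), Val c ∧ Stuck c := by
  classical
  have p0x : par (hd (yW 0)) (hd xx : Fin 3 ⊕ ι → Gp ι Z) = 0 := by rw [par_hd]; decide
  have p00 : par (hd (yW 0)) (hd 0 : Fin 3 ⊕ ι → Gp ι Z) = 0 := by rw [par_hd]; decide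
  have p1z : par (hd (yW 1)) (hd zz : Fin 3 ⊕ ι → Gp ι Z) = 0 := by rw [par_hd]; decide
  have p1p : par (hd (yW 1)) (hd pp : Fin 3 ⊕ ι → Gp ι Z) = 0 := by rw [par_hd]; decide
  have p2x : par (hd (yW 2)) (hd xx : Fin 3 ⊕ ι → Gp ι Z) ≠ 0 := by rw [par_hd]; decide
  have p2z : par (hd (yW 2)) (hd zz : Fin 3 ⊕ ι → Gp ι Z) ≠ 0 := by rw [par_hd]; decide
  have hEd : ∀ (j j' : Fin 3) (y : Fin 3 ⊕ ι → Gp ι Z), Q j y ∧ par (hd (yW j)) y = 0 →
      Q j' y ∧ par (hd (yW j')) y = 0 → j = j' := by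
    rintro j j' y ⟨h1, h2⟩ ⟨h3, h4⟩
    fin_cases j <;> fin_cases j'
    · rfl
    · exact (n01 h1 h3).elim
    · exact absurd (n02 h1 h3 ▸ h4) p2x
    · exact (n01 h3 h1).elim
    · rfl
    · exact absurd (n12 h1 h3 ▸ h4) p2z
    · exact absurd (n02 h3 h1 ▸ h2) p2x
    · exact absurd (n12 h3 h1 ▸ h2) p2z
    · rfl
  obtain ⟨δ, d1, d2, d3, d4, d5⟩ := gather (D := Fin 3 ⊕ ι) (phi (ι := ι) (Z := Z))
    (fun j y => Q j y ∧ par (hd (yW j)) y = 0) (fun j => emb (lW j)) (fun j => emb_two _)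
    (show ∀ j, (lW j 3, lW j 4) ≠ 0 by decide)
    (show ∀ j j', (lW j 3, lW j 4) = (lW j' 3, lW j' 4) → j = j' by decide)
    (fun j y h => h.1.two) (fun j y h => h.1.flat) hEd
    fun j u v hu hv => rigid hu.1 hv.1 (hu.2.trans hv.2.symm) (dir_two j)
  let c₁ := fun x : Fin 3 ⊕ ι → Gp ι Z => kap (∑ i, x i + δ x)
  have v0 : Val fun x : Fin 3 ⊕ ι → Gp ι Z => kap (∑ i, x i) := fun l => by
    simpa only [kap_iff] using lat_sum (col l)
  have v1 : Val c₁ := v0.invol (fun i x => x i + δ x)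
    (fun i x => by rw [d2, update_self, add_assoc, d1, add_zero])
    fun i x => by simp only [c₁, sum_update]; congr 1; abel
  have ev : ∀ j x, Q j x → par (hd (yW j)) x = 0 → c₁ x = some (.inr j) := fun j x h h' =>
    kap_iff.2 (d3 j x ⟨h, h'⟩)
  have od : ∀ j x, Q j x → (∀ j', ¬ (Q j' x ∧ par (hd (yW j')) x = 0)) → ¬ L0 x →
      c₁ x = none := fun j x h h' h0 => by
    show kap _ = none
    rw [d4 x h.flat h', add_zero]
    refine kap_none (fun k => h0 fun j => by rw [← lam_sum, k]) ?_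
    rw [map_sum]
    exact Finset.sum_eq_zero fun i _ => h.flat i
  have cov : ∀ x, L0 x → c₁ x ≠ none := fun x h e => by
    have k : ∀ j, lam j (∑ i, x i) = 0 := fun j => by rw [lam_sum, h j]
    have h1 : ∀ j, lW j 0 ≠ 0 := by decide
    rcases d5 x with d | ⟨j, d | d⟩
    · obtain ⟨l, hl⟩ := col_of k
      have : c₁ x = some l := kap_iff.2 (by rw [d, add_zero, hl])
      cases this.symm.trans e
    · exact h1 j (by simpa [d, lam, emb] using k (.inl 0))
    · have : c₁ x = some (.inr j) := kap_iff.2 d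
      cases this.symm.trans e
  let c₂ := sw (hd (yW 0)) (dir 0) (.inr 0) c₁
  let c₃ := sw (hd (yW 1)) (dir 1) (.inr 1) c₂
  let c₄ := sw (hd (yW 2)) (dir 2) (.inr 2) c₃
  have v2 : Val c₂ := v1.sw (dir_two 0) (dir_ne 0) (ev 0) fun x h h' => od 0 x h
    (fun j k => by
      fin_cases j
      · exact h' k.2
      · exact n01 h k.1
      · exact h' (n02 h k.1 ▸ p0x))
    fun k => by rcases lab (j := 0) h k with rfl | rfl <;> contradiction
  have v3 : Val c₃ := v2.sw (dir_two 1) (dir_ne 1)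
    (fun x h h' => (if_neg fun k => n01 k h).trans (ev 1 x h h'))
    fun x h h' => (if_neg fun k => n01 k h).trans (od 1 x h
      (fun j k => by
        fin_cases j
        · exact n01 k.1 h
        · exact h' k.2
        · exact h' (n12 h k.1 ▸ p1z))
      fun k => by rcases lab (j := 1) h k with rfl | rfl <;> contradiction)
  have v4 : Val c₄ := v3.sw (dir_two 2) (dir_ne 2)
    (fun x h h' => (if_neg fun k => p2z (n12 k h ▸ h')).trans
      ((if_neg fun k => p2x (n02 k h ▸ h')).trans (ev 2 x h h')))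
    fun x h h' => by
      by_cases k1 : Q 1 x
      · exact (if_pos k1).trans (if_pos (n12 k1 h ▸ p1z))
      by_cases k0 : Q 0 x
      · exact (if_neg k1).trans ((if_pos k0).trans (if_pos (n02 k0 h ▸ p0x)))
      refine (if_neg k1).trans ((if_neg k0).trans (od 2 x h (fun j k => ?_) fun k => ?_))
      · fin_cases j
        · exact k0 k.1
        · exact k1 k.1
        · exact h' k.2
      · rcases lab (j := 2) h k with rfl | rfl
        · exact k1 (Q_hd.2 (by decide))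
        · exact k0 (Q_hd.2 (by decide))
  refine ⟨c₄, v4, stuck_of (J := Fin 2 ⊕ ι) (by simp) lam v4 (lat_sum (emb ![1, 0, 0, 0, 0]))
    (fun x hx => ⟨.inl 0, by rw [← lam_sum, hx]; exact one_ne_zero⟩) (p := hd 0) (i₀ := .inl 1)
    (b := emb ![0, 0, 1, 0, 0]) (fun e => absurd (emb_inj.1 e) (by decide)) ?_ (fun j => ?_)
    fun x h e => ?_⟩
  · exact (if_neg fun k => absurd (Q_hd.1 k) (by decide)).trans
      ((if_neg fun k => absurd (Q_hd.1 k) (by decide)).trans
        ((if_pos (Q_hd.2 (by decide))).trans (if_pos p00)))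
  · refine Finset.sum_eq_zero ?_
    rintro (i | i) - <;> cases j <;> rfl
  · by_cases k2 : Q 2 x
    · have : c₄ x = some (.inr 2) := (if_pos k2).trans (if_neg (by
        rcases lab (j := 2) k2 h with rfl | rfl <;> assumption))
      cases this.symm.trans e
    by_cases k1 : Q 1 x
    · rcases lab (j := 1) k1 h with rfl | rfl
      · exact absurd (Q_hd.2 (by decide)) k2
      · refine Or.inr (funext ?_)
        rintro (i | i)
        · fin_cases i <;> rfl
        · rfl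
    by_cases k0 : Q 0 x
    · rcases lab (j := 0) k0 h with rfl | rfl
      · exact Or.inl rfl
      · exact absurd (Q_hd.2 (by decide)) k2
    exact absurd (((if_neg k2).trans ((if_neg k1).trans (if_neg k0))).symm.trans e) (cov x h)

end Pool.Agent.MP_264e74_co.H91
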